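import Pool.Agent.W482.IP.Stm

/-!
# IP-CEN: points near a central path are central
-/

set_option autoImplicit false
set_option maxHeartbeats 400000

namespace Pool.Agent.W975.IP

open Pool.Agent.W482.IP Set Filter Topology

variable {m n : ℕ}

theorem row_line (A : Fin m → Fin n → ℤ) (x h : Fin n → ℝ) (t : ℝ) (i : Fin m) :
    row A (x + t • h) i = row A x i + t * row A h i := by
  unfold row
  rw [Finset.mul_sum, ← Finset.sum_add_distrib]
  refine Finset.sum_congr rfl fun j _ => ?_
  simp only [Pi.add_apply, Pi.smul_apply, smul_eq_mul]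
  ring

theorem row_sub (A : Fin m → Fin n → ℤ) (x y : Fin n → ℝ) (i : Fin m) :
    row A (y - x) i = row A y i - row A x i := by
  unfold row
  rw [← Finset.sum_sub_distrib]
  refine Finset.sum_congr rfl fun j _ => ?_
  simp only [Pi.sub_apply]
  ring

theorem cost_sub (c : Fin n → ℤ) (x y : Fin n → ℝ) : cost c (y - x) = cost c y - cost c x := by
  unfold cost
  rw [← Finset.sum_sub_distrib]
  refine Finset.sum_congr rfl fun j _ => ?_
  simp only [Pi.sub_apply]
  ring

theorem inner_open (A : Fin m → Fin n → ℤ) (b : Fin m → ℤ) :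
    IsOpen (Pool.Agent.W482.IP.inner A b) := by
  have h1 : Pool.Agent.W482.IP.inner A b = ⋂ i, {x | row A x i < b i} := by
    ext x
    simp [Pool.Agent.W482.IP.inner]
  rw [h1]
  refine isOpen_iInter_of_finite fun i => isOpen_lt ?_ continuous_const
  unfold row
  fun_prop

theorem cen (h1 : LINE) (h2 : GROW) (h3 : DIK) : CEN := by
  intro m n A b c ν θ F hν hθ hθ1 hF x hx hnear y hy hyx i
  have hθ' : 0 < 1 - θ := by linarith
  obtain ⟨R, hR⟩ : ∃ R, R = 4 * (ν + 1) / (1 - θ) := ⟨_, rfl⟩
  have hR0 : 0 < R := by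
    rw [hR]
    positivity
  have hM : 1 + 8 * (ν + 1) / (1 - θ) = 1 + 2 * R := by
    rw [hR]
    ring
  rw [hM]
  have hxi : 0 < (b i : ℝ) - row A x i := by
    have := hx i
    linarith
  obtain ⟨h, hh⟩ : ∃ h, h = y - x := ⟨_, rfl⟩
  have hrow : ∀ j, row A h j = row A y j - row A x j := fun j => by rw [hh, row_sub]
  by_cases hh0 : h = 0
  · have hyx' : y = x := by
      rw [hh] at hh0
      exact sub_eq_zero.1 hh0
    rw [hyx']
    nlinarith
  have hseg : ∀ t ∈ Icc (0 : ℝ) 1, x + t • h ∈ Pool.Agent.W482.IP.inner A b := by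
    intro t ht j
    rw [row_line, hrow]
    have h4 := hx j
    have h5 := hy j
    have h6 := ht.1
    have h7 := ht.2
    rcases h6.eq_or_lt with h8 | h8
    · rw [← h8]
      linarith
    · nlinarith
  have hgrow := h2 (fun τ => dird 1 F (x + τ • h) h) (fun τ => dird 2 F (x + τ • h) h)
    (fun τ => dird 3 F (x + τ • h) h) ν θ hν hθ hθ1 (fun τ hτ => by
      have hG := hseg τ hτ
      have hl := h1 (Pool.Agent.W482.IP.inner A b) F (inner_open A b) hF.smooth x h τ hG
      exact ⟨hF.pos _ hG h hh0, hl.2.1, hl.2.2, hF.third _ hG h, hF.param _ hG h⟩)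
  have e0 : x + (0 : ℝ) • h = x := by simp
  simp only [e0] at hgrow
  have hf0 : -(θ * √(dird 2 F x h)) ≤ dird 1 F x h := by
    obtain ⟨η, hη, hall⟩ := hnear
    have h4 := (abs_le.1 (hall h)).1
    have h5 : cost c h ≤ 0 := by
      rw [hh, cost_sub]
      linarith
    have h6 : η * cost c h ≤ 0 := mul_nonpos_of_nonneg_of_nonpos hη h5
    linarith
  have hρ := hgrow hf0
  rw [← hR] at hρ
  have hτ : |(-(1 / (2 * R)))| * √(dird 2 F x h) < 1 := by
    rw [abs_neg, abs_of_pos (by positivity)]
    have h4 : 1 / (2 * R) * √(dird 2 F x h) ≤ 1 / (2 * R) * R :=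
      mul_le_mul_of_nonneg_left hρ (by positivity)
    have h5 : 1 / (2 * R) * R = 1 / 2 := by field_simp
    linarith
  have hin := h3 (Pool.Agent.W482.IP.inner A b) F ν (inner_open A b) hF x hx h _ hτ i
  rw [row_line, hrow] at hin
  have h4 : 0 < ((b i : ℝ) - row A x i) + 1 / (2 * R) * (row A y i - row A x i) := by
    linarith
  have h5 : 0 < 2 * R * (((b i : ℝ) - row A x i) + 1 / (2 * R) * (row A y i - row A x i)) := by
    positivity
  have h6 : 2 * R * (((b i : ℝ) - row A x i) + 1 / (2 * R) * (row A y i - row A x i)) =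
      2 * R * ((b i : ℝ) - row A x i) + (row A y i - row A x i) := by
    field_simp
  rw [h6] at h5
  linarith

end Pool.Agent.W975.IP
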